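import Pool.Agent.C4U.Stmts

/-!
# Squad C4U, row DYE: existence of the dyadic node
-/

set_option autoImplicit false

namespace Pool.Agent.C4U.H6

open Pool.Agent.C4U

theorem dye (hopw : OpwStmt) : DyeStmt := by
  intro r t hrt
  classical
  let P : ℕ → Prop := fun s => ∃ c, r < c ∧ c ≤ t ∧ 2 ^ s ∣ c
  have hP0 : P 0 := ⟨t, hrt, le_refl t, by simp⟩
  have hb : ∀ s, P s → s ≤ t := by
    rintro s ⟨c, hc1, hc2, hc3⟩
    have h1 : 2 ^ s ≤ c := Nat.le_of_dvd (by omega) hc3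
    have h2 : s < 2 ^ s := Nat.lt_two_pow_self
    omega
  have hs : P (Nat.findGreatest P t) := Nat.findGreatest_spec (P := P) (Nat.zero_le t) hP0
  have hmax : ∀ s, P s → s ≤ Nat.findGreatest P t := fun s h =>
    Nat.le_findGreatest (hb s h) h
  generalize Nat.findGreatest P t = s at hs hmax
  have hno : ∀ c, r < c → c ≤ t → ¬ 2 ^ (s + 1) ∣ c := by
    intro c h1 h2 h3
    have := hmax (s + 1) ⟨c, h1, h2, h3⟩
    omega
  obtain ⟨c, hc1, hc2, m, rfl⟩ := hs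
  have hodd : ∃ e, m = 2 * e + 1 := by
    rcases Nat.even_or_odd' m with ⟨e, he | he⟩
    · exfalso
      refine hno _ hc1 hc2 ⟨e, ?_⟩
      rw [he, pow_succ]
      ring
    · exact ⟨e, he⟩
  obtain ⟨e, rfl⟩ := hodd
  have ho := hopw s e
  have hpos : 0 < 2 ^ s := Nat.two_pow_pos s
  have hexp : 2 ^ s * (2 * e + 1) = 2 ^ s * (2 * e) + 2 ^ s := by ring
  refine ⟨2 ^ s * (2 * e + 1), by omega, hc2, ⟨hc1, ?_⟩, ⟨hc2, ?_⟩⟩
  · rw [ho]
    by_contra h
    push Not at h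
    refine hno (2 ^ s * (2 * e)) (by omega) (by omega) ⟨e, ?_⟩
    rw [pow_succ]
    ring
  · rw [ho]
    by_contra h
    push Not at h
    refine hno (2 ^ s * (2 * e + 1) + 2 ^ s) (by omega) h ⟨e + 1, ?_⟩
    rw [pow_succ]
    ring

end Pool.Agent.C4U.H6
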